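import Pool.Agent.H18.SSVMain

set_option autoImplicit false
open Complex Matrix
open scoped ComplexOrder
open Pool.Agent.H18.SSVDefs

namespace Pool.Agent.Results.MP_0eb722_an.PhaseSSV

/-- **Exactness of the LMI bound for the phase-sensitive structured singular value.**
Equality `mu = muHat` holds iff `muHat = 0` or there is a nonzero vector `x` with
`‖M x‖ = muHat ‖x‖` making an angle of at most `θ` with `- M x`.  Equality holds for all `n × n`
matrices iff `n ≤ 1` or `θ = π / 2`; for `n ≥ 2` and `θ < π / 2` it fails for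
`diag (-1, 4, ..., 4)`. -/
theorem result :
    (∀ (n : ℕ) (M : Matrix (Fin n) (Fin n) ℂ) (θ : ℝ), 0 ≤ θ → θ ≤ Real.pi / 2 →
      (mu θ M = muHat θ M ↔ muHat θ M = 0 ∨ ∃ x : Fin n → ℂ, x ≠ 0 ∧
        euclNorm (M *ᵥ x) = muHat θ M * euclNorm x ∧
        euclNorm (M *ᵥ x) * euclNorm x * Real.cos θ ≤ (-(star x ⬝ᵥ (M *ᵥ x))).re)) ∧
    (∀ (n : ℕ) (θ : ℝ), 0 ≤ θ → θ ≤ Real.pi / 2 →
      ((∀ M : Matrix (Fin n) (Fin n) ℂ, mu θ M = muHat θ M) ↔ n ≤ 1 ∨ θ = Real.pi / 2)) ∧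
    (∀ (n : ℕ) (θ : ℝ), 2 ≤ n → 0 ≤ θ → θ < Real.pi / 2 →
      muHat θ (Matrix.diagonal fun i : Fin n => if i.val = 0 then -1 else 4) = 2 ∧
      mu θ (Matrix.diagonal fun i : Fin n => if i.val = 0 then -1 else 4) < 2) := by
  refine ⟨fun n M θ h0 h1 => Pool.Agent.H18.SSV.main_iff h0 h1 M, fun n θ h0 h1 => ?_,
    fun n θ hn h0 h1 => ?_⟩
  · constructor
    · intro h
      by_contra hc
      push Not at hc
      obtain ⟨m, rfl⟩ : ∃ m, n = m + 2 := ⟨n - 2, by omega⟩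
      have := Pool.Agent.H18.SSV.example_strict (m := m) h0 (lt_of_le_of_ne h1 hc.2)
      rw [h _, this.1] at this
      exact lt_irrefl _ this.2
    · rintro (h | h)
      · intro M
        rcases Nat.le_one_iff_eq_zero_or_eq_one.1 h with rfl | rfl
        · exact Pool.Agent.H18.SSV.mu_eq_zero h0 h1 M
        · exact Pool.Agent.H18.SSV.mu_eq_one h0 h1 M
      · subst h
        exact Pool.Agent.H18.SSV.main_pi_div_two
  · obtain ⟨m, rfl⟩ : ∃ m, n = m + 2 := ⟨n - 2, by omega⟩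
    exact Pool.Agent.H18.SSV.example_strict h0 h1

end Pool.Agent.Results.MP_0eb722_an.PhaseSSV
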